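import Pool.Agent.N359.Benz.Defs
import Pool.Agent.N359.Benz.Proof

set_option autoImplicit false

namespace Pool.Agent.Results.MP_64a46a_co.RingBondOrderThree

open Pool.Agent.N359.Benz

/-- There is a benzenoid system with 25 hexagons which has a perfect matching and a hexagon of ring
bond order three; each perfect matching contains exactly three edges of this hexagon. -/
theorem result : ∃ (v : Site) (C : honeycomb.Walk v v) (h : ℤ × ℤ), C.IsCycle ∧
    {p | Inside C p}.ncard = 25 ∧ (∃ M, IsKekule C M) ∧ Inside C h ∧ ringBondOrder C h = 3 ∧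
    ∀ M, IsKekule C M → {i : Fin 6 | side h i ∈ M.edgeSet}.ncard = 3 :=
  ⟨v0, CC, (0, 0), CC_isCycle, inside_ncard, ⟨M0, M0_kekule⟩, (inside_iff _).2 (by decide), rbo,
    fun _ hM => ncard_sides hM⟩

end Pool.Agent.Results.MP_64a46a_co.RingBondOrderThree
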